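import Pool.Agent.H65.RL.Ops
import Pool.Agent.H15.TY.Llm

/-!
# ROB => DIM (MP_8f2e1c_an), chapter X: the axiom (A2) EXT of lift systems for the relation `Lr`

`rl_ext`: field `ext` of `H66.GEO.LS (Ph 𝒰 P) (Lr 𝒰 F D P)`. Exhaustion of the convex open set `S'` by the contractions of
`S' ∩ ball u' R` towards `u'` (factor `c < 1`), whose closures are compact subsets of `S'`; `llm` on each of them for the
constant sequence `H'`; the lifts agree (`fh_lift_eq`); glue.
-/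

set_option autoImplicit false

open Filter Topology Metric Set MeasureTheory

namespace Pool.Agent.H65.RL

open Pool.Agent.H56.UD
open Pool.Agent.H43.UB (Fh ph_closed ph_off)
open Pool.Agent.H64.XL (LT Lr)
open Pool.Agent.H41.XF (fh_eq fh_lift_eq)
open Pool.Agent.H15.TY (llm)

variable {𝒰 : Ultrafilter ℕ} {F : ℕ → ℂ → ℂ} {D P : ℕ → Set ℂ}

/-- two points of a convex open set lie in a convex open subset with compact closure in it -/
private theorem inner {S : Set ℂ} (So : IsOpen S) (Sc : Convex ℝ S) {a : ℂ} (ha : a ∈ S) (b : ℂ) (hb : b ∈ S) :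
    ∃ T : Set ℂ, IsOpen T ∧ Convex ℝ T ∧ a ∈ T ∧ b ∈ T ∧ ∃ K : Set ℂ, IsCompact K ∧ T ⊆ K ∧ K ⊆ S := by
  -- the segment is compact, a small thickening of it works
  have hK : IsCompact (segment ℝ a b) := by
    rw [segment_eq_image_lineMap]
    exact isCompact_Icc.image (AffineMap.lineMap_continuous)
  have hKS : segment ℝ a b ⊆ S := Sc.segment_subset ha hb
  obtain ⟨δ, hδ, hd⟩ := hK.exists_cthickening_subset_open So hKS
  refine ⟨thickening δ (segment ℝ a b), isOpen_thickening, (convex_segment a b).thickening δ, ?_, ?_,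
    cthickening δ (segment ℝ a b), hK.cthickening, thickening_subset_cthickening _ _, hd⟩
  · exact self_subset_thickening hδ _ (left_mem_segment ℝ a b)
  · exact self_subset_thickening hδ _ (right_mem_segment ℝ a b)

theorem rl_ext (hT : LT 𝒰 F D P) {S : Set ℂ} {H G : ℂ → ℂ} (h : Lr 𝒰 F D P S H G) (S' : Set ℂ) (H' : ℂ → ℂ) (u u' : ℂ)
    (So : IsOpen S') (Sc : Convex ℝ S') (Hd : DifferentiableOn ℂ H' S')
    (Hp : ∀ v ∈ S', H' v ∉ Ph 𝒰 P ∧ deriv H' v ≠ 0) (hu : u ∈ S) (hu' : u' ∈ S') (he : H' u' = H u) :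
    ∃ G' : ℂ → ℂ, Lr 𝒰 F D P S' H' G' ∧ G' u' = G u := by
  classical
  have hs : Gd 𝒰 F D P (H' u') (G u) := by
    rw [he]
    exact h.2.2.2.2.2 u hu
  -- lifts on the pieces
  have key : ∀ b ∈ S', ∃ (T : Set ℂ) (Q : ℂ → ℂ), IsOpen T ∧ Convex ℝ T ∧ T ⊆ S' ∧ u' ∈ T ∧ b ∈ T ∧ DifferentiableOn ℂ Q T ∧
      Q u' = G u ∧ ∀ v ∈ T, Gd 𝒰 F D P (H' v) (Q v) := by
    intro b hb
    obtain ⟨T, To, Tc, ha, hbT, K, Kc, hTK, hKS⟩ := inner So Sc hu' b hb
    have hTS : T ⊆ S' := hTK.trans hKS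
    have hcont : ContinuousOn H' K := Hd.continuousOn.mono hKS
    obtain ⟨M, hM⟩ := Kc.exists_bound_of_continuousOn hcont
    have himg : IsCompact (H' '' K) := Kc.image_of_continuousOn hcont
    have hdis : Disjoint (H' '' K) (Ph 𝒰 P) := by
      rw [Set.disjoint_left]
      rintro _ ⟨v, hv, rfl⟩ hv'
      exact (Hp v (hKS hv)).1 hv'
    have hoff := ph_off himg hdis
    obtain ⟨Q, Q0, _, h2, _, h4, h5⟩ := llm hT (S := T) Tc To (Hn := fun _ => H') (H := H') (M := M + 1) (by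
      filter_upwards [hoff] with n hn
      refine ⟨Hd.mono hTS, fun v hv => ⟨(Hp v (hTS hv)).2, ?_, ?_⟩⟩
      · have := hM v (hTK hv)
        linarith
      · exact fun hc => Set.disjoint_left.1 hn ⟨v, hTK hv, rfl⟩ hc) (by
      rw [Metric.tendstoLocallyUniformlyOn_iff]
      intro ε hε x hx
      exact ⟨T, self_mem_nhdsWithin, Eventually.of_forall fun n y _ => by rw [dist_self]; exact hε⟩)
      (fun v hv => (Hp v (hTS hv)).1) ha hs
    exact ⟨T, Q0, To, Tc, hTS, ha, hbT, h2, h4, h5⟩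
  choose! T Q To Tc TS Tu Tb Qd Qu Qg using key
  -- they agree
  have agree : ∀ b ∈ S', ∀ b' ∈ S', ∀ v ∈ T b ∩ T b', Q b v = Q b' v := by
    intro b hb b' hb' v hv
    exact fh_lift_eq hT ((To b hb).inter (To b' hb')) ((Tc b hb).inter (Tc b' hb')).isPreconnected (Q := Q b) (Q' := Q b')
      (H := H') ((Qd b hb).mono inter_subset_left) ((Qd b' hb').mono inter_subset_right)
      (fun w hw => ⟨⟨_, Qg b hb w hw.1⟩, fh_eq hT (Qg b hb w hw.1)⟩)
      (fun w hw => ⟨⟨_, Qg b' hb' w hw.2⟩, fh_eq hT (Qg b' hb' w hw.2)⟩) (fun w hw => (Hp w (TS b hb hw.1)).2)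
      ⟨Tu b hb, Tu b' hb'⟩ ((Qu b hb).trans (Qu b' hb').symm) hv
  refine ⟨fun v => Q v v, ⟨So, Sc, Hd, fun v hv => (Hp v hv).2, ?_, ?_⟩, Qu u' hu'⟩
  · intro b hb
    have h1 : DifferentiableAt ℂ (Q b) b := (Qd b hb).differentiableAt ((To b hb).mem_nhds (Tb b hb))
    refine (h1.congr_of_eventuallyEq ?_).differentiableWithinAt
    filter_upwards [(To b hb).mem_nhds (Tb b hb)] with v hv
    exact agree v (TS b hb hv) b hb v ⟨Tb v (TS b hb hv), hv⟩
  · intro v hv
    exact Qg v hv v (Tb v hv)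

end Pool.Agent.H65.RL
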