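import Pool.Agent.H41.XF.Nea
import Pool.Agent.H66.GEO.Defs

/-!
# ROB => DIM (MP_8f2e1c_an), chapter X: the axioms (A1), (A4) of lift systems for the relation `Lr`

`rl_Qc`, `rl_Q0`, `rl_op`, `rl_dH`, `rl_dG`, `rl_sub`, `rl_dis`: the fields `Qc`, `Q0`, `op`, `dH`, `dG`, `sub`, `dis` of
`H66.GEO.LS (Ph 𝒰 P) (Lr 𝒰 F D P)` for a limit system `LT 𝒰 F D P`.
-/

set_option autoImplicit false

open Filter Topology Metric Set MeasureTheory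

namespace Pool.Agent.H65.RL

open Pool.Agent.H56.UD
open Pool.Agent.H43.UB (Fh uh_der ph_closed ph_mem)
open Pool.Agent.H64.XL (LT Lr)
open Pool.Agent.H41.XF (gb gd_unique fh_eq fh_gd sg_open fh_diff fh_der fh_lift_eq)

variable {𝒰 : Ultrafilter ℕ} {F : ℕ → ℂ → ℂ} {D P : ℕ → Set ℂ}

theorem rl_Qc : IsClosed (Ph 𝒰 P) := ph_closed

theorem rl_Q0 (h : LT 𝒰 F D P) : (0 : ℂ) ∈ Ph 𝒰 P :=
  ph_mem (x := fun _ => (0 : ℂ)) (Eventually.of_forall h.P0) tendsto_const_nhds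

theorem rl_op {S : Set ℂ} {H G : ℂ → ℂ} (h : Lr 𝒰 F D P S H G) : IsOpen S ∧ Convex ℝ S := ⟨h.1, h.2.1⟩

theorem rl_dH {S : Set ℂ} {H G : ℂ → ℂ} (h : Lr 𝒰 F D P S H G) :
    DifferentiableOn ℂ H S ∧ ∀ u ∈ S, H u ∉ Ph 𝒰 P ∧ deriv H u ≠ 0 := by
  obtain ⟨h1, h2, h3, h4, h5, h6⟩ := h
  exact ⟨h3, fun u hu => ⟨(h6 u hu).1, h4 u hu⟩⟩

theorem rl_dG (hT : LT 𝒰 F D P) {S : Set ℂ} {H G : ℂ → ℂ} (h : Lr 𝒰 F D P S H G) :
    DifferentiableOn ℂ G S ∧ ∀ u ∈ S, deriv G u ≠ 0 := by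
  obtain ⟨h1, h2, h3, h4, h5, h6⟩ := h
  refine ⟨h5, fun u hu hc => ?_⟩
  have hs : G u ∈ Sg 𝒰 F D P := ⟨_, h6 u hu⟩
  have d1 : HasDerivAt (Fh 𝒰 F D P) (deriv (Fh 𝒰 F D P) (G u)) (G u) :=
    ((fh_diff hT).differentiableAt ((sg_open hT).mem_nhds hs)).hasDerivAt
  have d2 : HasDerivAt G (deriv G u) u := (h5.differentiableAt (h1.mem_nhds hu)).hasDerivAt
  have d3 := d1.comp u d2
  have d4 : HasDerivAt H (deriv (Fh 𝒰 F D P) (G u) * deriv G u) u := by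
    refine d3.congr_of_eventuallyEq ?_
    filter_upwards [h1.mem_nhds hu] with v hv
    exact (fh_eq hT (h6 v hv)).symm
  rw [hc, mul_zero] at d4
  exact h4 u hu d4.deriv

theorem rl_sub {S : Set ℂ} {H G : ℂ → ℂ} (h : Lr 𝒰 F D P S H G) (S' : Set ℂ) (k H' G' : ℂ → ℂ) (So : IsOpen S')
    (Sc : Convex ℝ S') (kd : DifferentiableOn ℂ k S')
    (hk : ∀ u ∈ S', k u ∈ S ∧ deriv k u ≠ 0 ∧ H' u = H (k u) ∧ G' u = G (k u)) : Lr 𝒰 F D P S' H' G' := by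
  obtain ⟨h1, h2, h3, h4, h5, h6⟩ := h
  have hm : MapsTo k S' S := fun u hu => (hk u hu).1
  refine ⟨So, Sc, ?_, ?_, ?_, ?_⟩
  · exact (h3.comp kd hm).congr fun u hu => (hk u hu).2.2.1
  · intro u hu
    have d1 : HasDerivAt H (deriv H (k u)) (k u) := (h3.differentiableAt (h1.mem_nhds (hm hu))).hasDerivAt
    have d2 : HasDerivAt k (deriv k u) u := (kd.differentiableAt (So.mem_nhds hu)).hasDerivAt
    have d3 := d1.comp u d2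
    have d4 : HasDerivAt H' (deriv H (k u) * deriv k u) u := by
      refine d3.congr_of_eventuallyEq ?_
      filter_upwards [So.mem_nhds hu] with v hv
      exact (hk v hv).2.2.1
    rw [d4.deriv]
    exact mul_ne_zero (h4 _ (hm hu)) (hk u hu).2.1
  · exact (h5.comp kd hm).congr fun u hu => (hk u hu).2.2.2
  · intro u hu
    rw [(hk u hu).2.2.1, (hk u hu).2.2.2]
    exact h6 _ (hm hu)

/-- near a point a lift is a branch applied to the lifted map -/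
private theorem loc (hT : LT 𝒰 F D P) {S : Set ℂ} {H G : ℂ → ℂ} (h : Lr 𝒰 F D P S H G) {u : ℂ} (hu : u ∈ S) {r : ℝ}
    (hr : 0 < r) {g : ℂ → ℂ} (gd : DifferentiableOn ℂ g (ball (H u) r)) (gw : g (H u) = G u)
    (gg : ∀ v ∈ ball (H u) r, Gd 𝒰 F D P v (g v)) : ∃ t : ℝ, 0 < t ∧ ∀ v ∈ ball u t, G v = g (H v) := by
  obtain ⟨hSo, hSc, hH, hH0, hG, hgd⟩ := h
  have hHc : ContinuousAt H u := (hH.differentiableAt (hSo.mem_nhds hu)).continuousAt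
  have hn1 : ∀ᶠ v in 𝓝 u, H v ∈ ball (H u) r ∧ v ∈ S :=
    (hHc.eventually (ball_mem_nhds _ hr)).and (hSo.mem_nhds hu)
  obtain ⟨t, ht0, hts⟩ := Metric.mem_nhds_iff.1 hn1
  have hS1 : ball u t ⊆ S := fun u hu => (hts hu).2
  have hS2 : MapsTo H (ball u t) (ball (H u) r) := fun u hu => (hts hu).1
  have hEq := fh_lift_eq hT isOpen_ball (convex_ball u t).isPreconnected (Q := G) (Q' := fun u => g (H u)) (H := H)
    (hG.mono hS1) (gd.comp (hH.mono hS1) hS2) (fun u hu => ⟨⟨_, hgd u (hS1 hu)⟩, fh_eq hT (hgd u (hS1 hu))⟩)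
    (fun u hu => ⟨⟨_, gg _ (hS2 hu)⟩, fh_eq hT (gg _ (hS2 hu))⟩) (fun u hu => hH0 u (hS1 hu)) (mem_ball_self ht0)
    gw.symm
  exact ⟨t, ht0, fun v hv => hEq hv⟩

theorem rl_dis (hT : LT 𝒰 F D P) {S S' : Set ℂ} {H G H' G' : ℂ → ℂ} (h : Lr 𝒰 F D P S H G) (h' : Lr 𝒰 F D P S' H' G') :
    ∀ u ∈ S, ∀ u' ∈ S', G u = G' u' →
      H u = H' u' ∧ ∃ ε : ℝ, 0 < ε ∧ ∀ v ∈ S, ∀ v' ∈ S', ‖v - u‖ < ε → ‖v' - u'‖ < ε → H v = H' v' → G v = G' v' := by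
  intro u hu u' hu' he
  have g1 : Gd 𝒰 F D P (H u) (G u) := h.2.2.2.2.2 u hu
  have g2 : Gd 𝒰 F D P (H' u') (G' u') := h'.2.2.2.2.2 u' hu'
  have hw : H u = H' u' := by
    rw [← he] at g2
    exact gd_unique hT g1 g2
  refine ⟨hw, ?_⟩
  have hc : (Ph 𝒰 P)ᶜ ∈ 𝓝 (H u) := (ph_closed (𝒰 := 𝒰) (P := P)).isOpen_compl.mem_nhds g1.1
  obtain ⟨r, hr, hrb⟩ := Metric.nhds_basis_closedBall.mem_iff.1 hc
  obtain ⟨Gn, g, e1, e2, _, e4, e5, e6, e7⟩ := gb hT g1 hr (Set.disjoint_left.2 fun x hx hx' => hrb hx hx')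
  obtain ⟨t, ht, hgt⟩ := loc hT h hu hr e4 e6 e7
  obtain ⟨t', ht', hgt'⟩ := loc hT h' hu' hr (g := g) (by rw [← hw]; exact e4) (by rw [← hw, e6, he]) (by
    rw [← hw]
    exact e7)
  refine ⟨min t t', lt_min ht ht', fun v _ v' _ hv hv' hvv => ?_⟩
  rw [hgt v (by rw [mem_ball, dist_eq_norm]; exact hv.trans_le (min_le_left _ _)),
    hgt' v' (by rw [mem_ball, dist_eq_norm]; exact hv'.trans_le (min_le_right _ _)), hvv]

end Pool.Agent.H65.RL
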